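import Pool.Agent.X14.PC3

/-!
# `Σ_{k≤(p^r-1)/2} (4k+1) ((1/2)_k/k!)^4` modulo `p^{r+4}`
-/

set_option autoImplicit false

namespace Pool.Agent.Results.MP_8d9088_nt.BernoulliAllPowers

open Finset

/-- The rising factorial `(x)_k = x (x+1) ⋯ (x+k-1)`. -/
def rf (x : ℚ) (k : ℕ) : ℚ := ∏ i ∈ range k, (x + i)

/-- The sum `S(N)`. -/
def S (N : ℕ) : ℚ := ∑ k ∈ range (N + 1), (4 * (k : ℚ) + 1) * (rf (1 / 2) k / (k.factorial : ℚ)) ^ 4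

lemma rf_half (k : ℕ) : rf (1 / 2) k / (k.factorial : ℚ) = (k.centralBinom : ℚ) / 4 ^ k := by
  induction k with
  | zero => simp [rf]
  | succ k ih =>
    have h1 : rf (1 / 2) (k + 1) = rf (1 / 2) k * (1 / 2 + k) := by rw [rf, prod_range_succ, ← rf]
    have h2 := Nat.succ_mul_centralBinom_succ k
    have h3 : ((k : ℚ) + 1) * ((k + 1).centralBinom : ℚ) = 2 * (2 * k + 1) * (k.centralBinom : ℚ) := by exact_mod_cast h2
    have h4 : (k.factorial : ℚ) ≠ 0 := by exact_mod_cast Nat.factorial_ne_zero k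
    have h5 : ((k : ℚ) + 1) ≠ 0 := by positivity
    rw [h1, Nat.factorial_succ]
    push_cast
    have h6 : ((k + 1).centralBinom : ℚ) = 2 * (2 * k + 1) * (k.centralBinom : ℚ) / (k + 1) := by
      rw [eq_div_iff h5, ← h3]; ring
    have h7 : rf (1 / 2) k * (1 / 2 + (k : ℚ)) / (((k : ℚ) + 1) * (k.factorial : ℚ)) =
        rf (1 / 2) k / (k.factorial : ℚ) * ((1 / 2 + (k : ℚ)) / (k + 1)) := by
      rw [mul_comm ((k : ℚ) + 1), mul_div_mul_comm]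
    rw [h7, ih, h6, pow_succ]
    have h8 : (4 : ℚ) ^ k ≠ 0 := by positivity
    field_simp
    ring

/-- For every prime `p > 3` and every `r ≥ 1`:
`S((p^r-1)/2) ≡ p^r + (7/6) B_{p-3} p^{r+3} (mod p^{r+4})`, i.e. the difference of the two sides is
`p^{r+4} u` with a rational number `u` whose denominator is prime to `p`. -/
theorem result (p r : ℕ) (hp : p.Prime) (hp3 : 3 < p) (hr : 1 ≤ r) :
    ∃ u : ℚ, ¬ p ∣ u.den ∧
      S ((p ^ r - 1) / 2) - ((p : ℚ) ^ r + 7 / 6 * bernoulli (p - 3) * (p : ℚ) ^ (r + 3)) = (p : ℚ) ^ (r + 4) * u := by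
  haveI : Fact p.Prime := ⟨hp⟩
  obtain ⟨b, rfl⟩ : ∃ b, r = b + 1 := ⟨r - 1, by omega⟩
  have hp2 : p ≠ 2 := by omega
  have h1 := Pool.Agent.X14.PC.main_t (p := p) hp2 (by omega) b
  obtain ⟨s, hs⟩ : ∃ s, p ^ (b + 1) = 2 * s + 1 := (hp.odd_of_ne_two hp2).pow
  obtain ⟨z, hz⟩ := Pool.Agent.X14.PA.main_padic hp hp2 hs rfl
  have h2 : Pool.Agent.H434R2.PO p (b + 5) ((p : ℚ) ^ (b + 5) * ((z : ℚ) * ((2 : ℚ)⁻¹) ^ (8 * p ^ (b + 1)))) :=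
    (Pool.Agent.H434R2.PO.ppow (p := p) (b + 5)).mul0' ((Pool.Agent.H434R2.PO.of_int z).mul0
      ((Pool.Agent.H434R2.PO.inv_two hp2).pow0 _))
  have h3 : S ((p ^ (b + 1) - 1) / 2) = ∑ j ∈ range (s + 1), (4 * (j : ℚ) + 1) * ((j.centralBinom : ℚ) / 4 ^ j) ^ 4 := by
    rw [hs, S, show (2 * s + 1 - 1) / 2 = s by omega]
    apply sum_congr rfl
    intro k _
    rw [rf_half]
  have h4 : ∑ j ∈ range (p ^ (b + 1)), (3 * (j : ℚ) + 1) * ((j.centralBinom : ℚ) / 4 ^ j) ^ 3 * 2 ^ (2 * j) =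
      ∑ k ∈ range (p ^ (b + 1)), (3 * (k : ℚ) + 1) * Pool.Agent.X14.PC.t k := by
    apply sum_congr rfl
    intro k _
    rw [Pool.Agent.X14.PC.t_eq, mul_assoc]
  rw [h4, ← h3] at hz
  have h5 := h1.add h2
  have h6 : S ((p ^ (b + 1) - 1) / 2) - ((p : ℚ) ^ (b + 1) + 7 / 6 * bernoulli (p - 3) * (p : ℚ) ^ (b + 1 + 3)) =
      ∑ k ∈ range (p ^ (b + 1)), (3 * (k : ℚ) + 1) * Pool.Agent.X14.PC.t k -
      ((p : ℚ) ^ (b + 1) + 7 / 6 * bernoulli (p - 3) * (p : ℚ) ^ (b + 1 + 3)) +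
      (p : ℚ) ^ (b + 5) * ((z : ℚ) * ((2 : ℚ)⁻¹) ^ (8 * p ^ (b + 1))) := by
    rw [inv_pow, ← div_eq_mul_inv, ← hz]; ring
  rw [← h6] at h5
  obtain ⟨u, hu1, hu2⟩ := Pool.Agent.H434R2.PO.exists_rep h5
  refine ⟨u, fun h => ?_, ?_⟩
  · exact hp.one_lt.ne' (Nat.Coprime.eq_one_of_dvd hu1.symm h)
  · rw [show b + 1 + 4 = b + 5 by ring, ← hu2]

end Pool.Agent.Results.MP_8d9088_nt.BernoulliAllPowers
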